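import Pool.Agent.Run7.h74.UC.Iface

set_option autoImplicit false

/-!
Piece CHT of project UC (helper74): combination of the truncation errors, the diagonal and the mean over `V → ∞`.
-/

namespace Pool.Agent.Run7.h989.UC

open Filter Topology MeasureTheory Complex
open Pool.Agent.Q97.UM
open Pool.Agent.Run7.h74.DW (wt)
open Pool.Agent.Run7.h74.UC

theorem dp_c (M : ℕ) (c : ℕ → ℂ) : Continuous (dp M c) := by
  unfold dp
  refine continuous_finsetSum _ fun n hn => ?_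
  have hn1 : 1 ≤ n := (Finset.mem_Icc.mp hn).1
  have hn0 : (n : ℂ) ≠ 0 := by exact_mod_cast Nat.one_le_iff_ne_zero.mp hn1
  refine continuous_const.mul ?_
  refine Continuous.const_cpow (by fun_prop) (Or.inl hn0)

theorem zf_c (D : ℝ) (a a2 : ℕ → ℂ) (j : ℕ) : Continuous (zf D a a2 j) := by
  have : zf D a a2 j = dp (⌊XB D j⌋₊ ^ 2) (qb D a a2 j) := by
    funext t; rfl
  rw [this]
  exact dp_c _ _

theorem TEx_c (R : ℕ) : Continuous (TEx R) := by
  unfold TEx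
  fun_prop

theorem Ef_c (D κ : ℝ) (a a2 : ℕ → ℂ) (j₀ : ℕ) : Continuous (Ef D κ a a2 j₀) := by
  unfold Ef
  refine continuous_finsetProd _ fun l _ => ?_
  exact (TEx_c _).comp (zf_c _ _ _ _)

theorem ES_c (D : ℝ) (a a2 : ℕ → ℂ) (j₀ : ℕ) : Continuous (ES D a a2 j₀) := by
  unfold ES
  exact continuous_finsetSum _ fun l _ => zf_c _ _ _ _

theorem Oe_c (D : ℝ) (a a2 : ℕ → ℂ) (j₀ : ℕ) : Continuous (Oe D a a2 j₀) := by
  unfold Oe
  have h := ES_c D a a2 j₀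
  fun_prop

theorem OG_c (D κ : ℝ) (a a2 : ℕ → ℂ) (j₀ : ℕ) : Continuous (OG D κ a a2 j₀) := by
  unfold OG E1 E2
  refine (Ef_c _ _ _ _ _).mul ?_
  exact continuous_conj.comp (Ef_c _ _ _ _ _)

theorem wt_c (a b : ℝ) : Continuous (wt a b) := by
  unfold wt
  fun_prop

theorem wt_nn {a b t : ℝ} (ha : a ≤ t) (hb : t ≤ b) : 0 ≤ wt a b t := by
  unfold wt
  have h1 : 0 ≤ t - a := by linarith
  have h2 : 0 ≤ b - t := by linarith
  positivity

theorem wt_le {a b t : ℝ} : wt a b t ≤ 1 := by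
  unfold wt
  rcases eq_or_ne ((b - a) ^ 2) 0 with h | h
  · rw [h]; simp
  · have hp : 0 < (b - a) ^ 2 := lt_of_le_of_ne (sq_nonneg _) (Ne.symm h)
    rw [div_le_one hp]
    nlinarith [sq_nonneg ((t - a) - (b - t))]

theorem N2_nn' (N : ℕ) (b : ℕ → ℂ) : 0 ≤ N2 N b := by
  unfold N2
  exact Finset.sum_nonneg fun n _ => by positivity

/-- the combination, for one `T` -/
theorem comb {O G : ℝ → ℂ} {β : ℝ → ℝ} (hO : Continuous O) (hG : Continuous G) (hβ : Continuous β) (hβ0 : ∀ t, 0 ≤ β t)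
    {T a b n D x1 x2 : ℝ} {x : ℂ} (hab : a ≤ b) (hT : 0 < T)
    (h1 : ∫ t in a..b, ‖O t - G t‖ * β t ≤ x1)
    (h2 : ‖(∫ t in a..b, (wt a b t : ℂ) * (G t * ((β t : ℝ) : ℂ))) - ((5 / 3 * T : ℝ) : ℂ) * x‖ ≤ x2)
    (h3 : Tendsto (fun V : ℝ => ((V⁻¹ : ℝ) : ℂ) * ∫ t in V..(2 * V), G t * ((β t : ℝ) : ℂ)) atTop (𝓝 x))
    (h4 : ∀ᶠ V : ℝ in atTop, ‖∫ t in V..(2 * V), O t * ((β t : ℝ) : ℂ)‖ ≤ n * V)
    (h5 : ∀ᶠ V : ℝ in atTop, ∫ t in V..(2 * V), ‖O t - G t‖ * β t ≤ D * V) :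
    ‖∫ t in a..b, (wt a b t : ℂ) * (O t * ((β t : ℝ) : ℂ))‖ ≤ x1 + x2 + 5 / 3 * T * (n + D) := by
  have hx : ‖x‖ ≤ n + D := by
    refine le_of_tendsto h3.norm ?_
    filter_upwards [h4, h5, eventually_gt_atTop 0] with V h4 h5 hV
    have e1 : (∫ t in V..(2 * V), G t * ((β t : ℝ) : ℂ)) =
        (∫ t in V..(2 * V), O t * ((β t : ℝ) : ℂ)) - ∫ t in V..(2 * V), (O t - G t) * ((β t : ℝ) : ℂ) := by
      rw [← intervalIntegral.integral_sub]
      · congr 1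
        funext t
        ring
      · exact Continuous.intervalIntegrable (by fun_prop) _ _
      · exact Continuous.intervalIntegrable (by fun_prop) _ _
    have e2 : ‖∫ t in V..(2 * V), (O t - G t) * ((β t : ℝ) : ℂ)‖ ≤ ∫ t in V..(2 * V), ‖O t - G t‖ * β t := by
      refine (intervalIntegral.norm_integral_le_integral_norm (by linarith)).trans (le_of_eq ?_)
      congr 1
      funext t
      rw [norm_mul, Complex.norm_real, Real.norm_eq_abs, abs_of_nonneg (hβ0 t)]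
    rw [norm_mul, e1, Complex.norm_real, norm_inv, Real.norm_eq_abs, abs_of_pos hV, inv_mul_le_iff₀ hV]
    calc _ ≤ _ := norm_sub_le _ _
      _ ≤ n * V + D * V := add_le_add h4 (e2.trans h5)
      _ = V * (n + D) := by ring
  have e3 : (∫ t in a..b, (wt a b t : ℂ) * (O t * ((β t : ℝ) : ℂ))) =
      (∫ t in a..b, (wt a b t : ℂ) * ((O t - G t) * ((β t : ℝ) : ℂ))) +
      ∫ t in a..b, (wt a b t : ℂ) * (G t * ((β t : ℝ) : ℂ)) := by
    have hw := wt_c a b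
    rw [← intervalIntegral.integral_add]
    · congr 1
      funext t
      ring
    · exact Continuous.intervalIntegrable (by fun_prop) _ _
    · exact Continuous.intervalIntegrable (by fun_prop) _ _
  have e4 : ‖∫ t in a..b, (wt a b t : ℂ) * ((O t - G t) * ((β t : ℝ) : ℂ))‖ ≤ x1 := by
    have hw := wt_c a b
    refine (intervalIntegral.norm_integral_le_integral_norm hab).trans (le_trans ?_ h1)
    refine intervalIntegral.integral_mono_on hab ?_ ?_ ?_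
    · exact Continuous.intervalIntegrable (by fun_prop) _ _
    · exact Continuous.intervalIntegrable (by fun_prop) _ _
    · intro t ht
      rw [norm_mul, norm_mul, Complex.norm_real, Complex.norm_real, Real.norm_eq_abs, Real.norm_eq_abs,
        abs_of_nonneg (hβ0 t), abs_of_nonneg (wt_nn ht.1 ht.2)]
      calc wt a b t * (‖O t - G t‖ * β t) ≤ 1 * (‖O t - G t‖ * β t) :=
            mul_le_mul_of_nonneg_right wt_le (mul_nonneg (norm_nonneg _) (hβ0 t))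
        _ = _ := one_mul _
  have e5 : ‖((5 / 3 * T : ℝ) : ℂ) * x‖ ≤ 5 / 3 * T * (n + D) := by
    rw [norm_mul, Complex.norm_real, Real.norm_eq_abs, abs_of_nonneg (by positivity)]
    exact mul_le_mul_of_nonneg_left hx (by positivity)
  rw [e3]
  calc _ ≤ ‖∫ t in a..b, (wt a b t : ℂ) * ((O t - G t) * ((β t : ℝ) : ℂ))‖ + ‖∫ t in a..b, (wt a b t : ℂ) * (G t * ((β t : ℝ) : ℂ))‖ :=
        norm_add_le _ _
    _ ≤ x1 + (x2 + 5 / 3 * T * (n + D)) := by
        refine add_le_add e4 ?_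
        have : (∫ t in a..b, (wt a b t : ℂ) * (G t * ((β t : ℝ) : ℂ))) =
            ((∫ t in a..b, (wt a b t : ℂ) * (G t * ((β t : ℝ) : ℂ))) - ((5 / 3 * T : ℝ) : ℂ) * x) + ((5 / 3 * T : ℝ) : ℂ) * x := by ring
        rw [this]
        exact (norm_add_le _ _).trans (add_le_add h2 e5)
    _ = _ := by ring

theorem t_CHT : J_CHT := by
  intro hERT hERV hDIA hCHV A hA
  obtain ⟨κ₁, hκ₁, H1⟩ := hERT A hA
  obtain ⟨κ₂, hκ₂, H2⟩ := hERV A hA
  set κ : ℝ := max κ₁ κ₂ with hκ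
  obtain ⟨C₁, δ₁, hC₁, hδ₁, H1⟩ := H1 κ (le_max_left _ _)
  obtain ⟨C₂, hC₂, H2⟩ := H2 κ (le_max_right _ _)
  obtain ⟨δ₂, hδ₂, H3⟩ := hDIA κ (hκ₁.trans (le_max_left _ _))
  obtain ⟨C₃, hC₃, H4⟩ := hCHV
  refine ⟨C₁ + 1 + 2 * C₂ + 2 * C₃, min δ₁ δ₂, by linarith, lt_min hδ₁ hδ₂, fun δ hδ hδ' => ?_⟩
  have hδa : δ ≤ δ₁ := hδ'.trans (min_le_left _ _)
  have hδb : δ ≤ δ₂ := hδ'.trans (min_le_right _ _)
  have hlog : Tendsto (fun T : ℝ => δ * Real.log T) atTop atTop := Real.tendsto_log_atTop.const_mul_atTop hδ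
  have hsq : ∀ᶠ T : ℝ in atTop, δ * Real.log T ≤ T ^ (1 / 2 : ℝ) := by
    have h := (isLittleO_log_rpow_atTop (show (0 : ℝ) < 1 / 2 by norm_num)).bound (show (0 : ℝ) < δ⁻¹ by positivity)
    filter_upwards [h, eventually_ge_atTop 1] with T hT hT1
    rw [Real.norm_eq_abs, Real.norm_eq_abs, abs_of_nonneg (Real.log_nonneg hT1),
      abs_of_nonneg (Real.rpow_nonneg (by linarith) _)] at hT
    calc δ * Real.log T ≤ δ * (δ⁻¹ * T ^ (1 / 2 : ℝ)) := mul_le_mul_of_nonneg_left hT hδ.le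
      _ = _ := by field_simp
  filter_upwards [H1 δ hδ hδa, H3 δ hδ hδb, hlog.eventually_ge_atTop 2, hsq, eventually_ge_atTop 1] with
    T g1 g3 hD hDs hT1 a a2 ha ha2 N b hN hNT hb j₀
  obtain ⟨x, g3a, g3b⟩ := g3 a a2 ha ha2 N b hN hNT hb j₀
  have g1' := g1 a a2 ha ha2 N b hN hNT hb j₀
  set D : ℝ := δ * Real.log T with hDd
  have hND : Real.log N ≤ D := by
    have hN0 : (0 : ℝ) < N := by exact_mod_cast hN
    calc Real.log N ≤ Real.log (T ^ δ) := Real.log_le_log hN0 hNT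
      _ = D := by rw [Real.log_rpow (by linarith)]
  have g2 := H2 D (by linarith) a a2 ha ha2 N b hN hND hb j₀
  have g4 := H4 D hD a a2 ha ha2 j₀ N b hN hND hb
  set n2 : ℝ := N2 N b with hn2
  have hn20 : 0 ≤ n2 := N2_nn' N b
  set X : ℝ := Real.exp (-(A * j₀)) with hX
  set Y : ℝ := Real.exp (-(1 / 8) * ∑ p ∈ UP D j₀, ‖a p‖ ^ 2 / p) with hY
  have hX0 : 0 ≤ X := (Real.exp_pos _).le
  have hY0 : 0 ≤ Y := (Real.exp_pos _).le
  have hD0 : 0 < D := by linarith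
  have hT0 : 0 < T := by linarith
  have key := comb (T := T) (O := Oe D a a2 j₀) (G := OG D κ a a2 j₀) (β := fun t => ‖dp N b t‖ ^ 2)
    (a := T / 2) (b := 3 * T) (n := C₃ * (Y + 1 / D) * n2) (D := C₂ * X * n2)
    (Oe_c _ _ _ _) (OG_c _ _ _ _ _) (((dp_c N b).norm).pow 2) (fun t => by positivity) (by linarith) hT0 g1' g3a g3b
    (by filter_upwards [g4] with V hV
        calc _ ≤ _ := hV
          _ = _ := by ring)
    g2
  have hs : T ^ (1 / 2 : ℝ) ≤ T / D := by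
    rw [le_div_iff₀ hD0]
    calc T ^ (1 / 2 : ℝ) * D ≤ T ^ (1 / 2 : ℝ) * T ^ (1 / 2 : ℝ) := mul_le_mul_of_nonneg_left hDs (Real.rpow_nonneg hT0.le _)
      _ = T := by rw [← Real.rpow_add hT0]; norm_num
  have hs2 : T ^ (1 / 2 : ℝ) * n2 ≤ T / D * n2 := mul_le_mul_of_nonneg_right hs hn20
  refine key.trans ?_
  have hTn : 0 ≤ T * n2 := by positivity
  have hDi : 0 ≤ 1 / D := by positivity
  have k1 : 0 ≤ (T * n2) * X := mul_nonneg hTn hX0
  have k2 : 0 ≤ (T * n2) * Y := mul_nonneg hTn hY0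
  have k3 : 0 ≤ (T * n2) * (1 / D) := mul_nonneg hTn hDi
  have k4 : T / D * n2 = (T * n2) * (1 / D) := by ring
  have hC1' : 0 ≤ C₁ := by linarith
  have hC2' : 0 ≤ C₂ := by linarith
  have hC3' : 0 ≤ C₃ := by linarith
  calc C₁ * X * (T * n2) + T ^ (1 / 2 : ℝ) * n2 + 5 / 3 * T * (C₃ * (Y + 1 / D) * n2 + C₂ * X * n2)
      ≤ C₁ * X * (T * n2) + (T * n2) * (1 / D) + 5 / 3 * T * (C₃ * (Y + 1 / D) * n2 + C₂ * X * n2) := by linarith
    _ ≤ (C₁ + 1 + 2 * C₂ + 2 * C₃) * (X + Y + 1 / D) * (T * n2) := by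
        have q1 := mul_nonneg hC1' k1
        have q2 := mul_nonneg hC1' k2
        have q3 := mul_nonneg hC1' k3
        have q4 := mul_nonneg hC2' k1
        have q5 := mul_nonneg hC2' k2
        have q6 := mul_nonneg hC2' k3
        have q7 := mul_nonneg hC3' k1
        have q8 := mul_nonneg hC3' k2
        have q9 := mul_nonneg hC3' k3
        nlinarith [q1, q2, q3, q4, q5, q6, q7, q8, q9, k1, k2, k3]

end Pool.Agent.Run7.h989.UC
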